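import Pool.Agent.W363.JQ.Stm

/-! Project JQ (helper363), part PCL. -/

set_option autoImplicit false

namespace Pool.Agent.W99.JQ

open Filter Topology Set Metric Polynomial
open Pool.Agent.W363.JQ

/-- the iterate as a polynomial -/
noncomputable def itP (f : Polynomial ℂ) (n : ℕ) : Polynomial ℂ := f.comp^[n] X

theorem itP_eval (f : Polynomial ℂ) (n : ℕ) (z : ℂ) : (itP f n).eval z = it f n z := by
  unfold itP it
  rw [iterate_comp_eval, eval_X]

theorem itP_natDegree (f : Polynomial ℂ) (n : ℕ) : (itP f n).natDegree = f.natDegree ^ n := by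
  unfold itP
  rw [natDegree_iterate_comp, natDegree_X, mul_one]

theorem itP_crit (f : Polynomial ℂ) (n : ℕ) (z : ℂ) (h : (itP f n).derivative.eval z = 0) :
    ∃ c : ℂ, f.derivative.eval c = 0 ∧ ∃ m : ℕ, it f m c = it f n z := by
  induction n with
  | zero => simp [itP] at h
  | succ n ih =>
    have e : itP f (n + 1) = f.comp (itP f n) := by
      unfold itP
      rw [Function.iterate_succ_apply']
    have e2 : it f (n + 1) z = f.eval (it f n z) := by
      unfold it
      rw [Function.iterate_succ_apply']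
    rw [e, derivative_comp, eval_mul, eval_comp, mul_eq_zero] at h
    rcases h with h | h
    · obtain ⟨c, hc, m, hm⟩ := ih h
      refine ⟨c, hc, m + 1, ?_⟩
      rw [e2, ← hm]
      unfold it
      rw [Function.iterate_succ_apply']
    · refine ⟨it f n z, ?_, 1, ?_⟩
      · rwa [itP_eval] at h
      · rw [e2]
        rfl

theorem itP_PC (f : Polynomial ℂ) (n : ℕ) (z : ℂ) (h : (itP f n).derivative.eval z = 0) :
    it f n z ∈ PC f := by
  obtain ⟨c, hc, m, hm⟩ := itP_crit f n z h
  refine subset_closure (Set.mem_iUnion₂.2 ⟨c, hc, m, hm⟩)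

theorem pcl (h1 : S_plift) (h2 : S_plu) : S_pcl := by
  intro f hf n c hc hcP z hz
  have hdeg : 1 ≤ (itP f n).natDegree := by
    rw [itP_natDegree]
    exact Nat.one_le_pow _ _ hf
  have hcv : ∀ t ∈ Icc (0 : ℝ) 1, CVfree (itP f n) (c t) := by
    intro t ht w hw hw2
    apply hcP t ht
    rw [← hw2, itP_eval]
    exact itP_PC f n w hw
  obtain ⟨γ, hγ, hγ0, hγc⟩ := h1 (itP f n) hdeg 0 1 c zero_le_one hc hcv z (by rw [itP_eval, hz])
  refine ⟨γ, hγ, hγ0, fun t ht => by rw [← itP_eval]; exact hγc t ht, ?_⟩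
  rintro γ' hγ' hγ'c ⟨t₀, ht₀, he⟩ t ht
  refine h2 (itP f n) (Icc 0 1) γ' γ isPreconnected_Icc hγ' hγ ?_ ?_ ?_ t₀ ht₀ he t ht
  · intro s hs
    rw [hγc s hs, itP_eval, hγ'c s hs]
  · intro s hs h0
    apply hcP s hs
    rw [← hγ'c s hs]
    exact itP_PC f n _ h0
  · intro s hs h0
    apply hcP s hs
    rw [← hγc s hs, itP_eval]
    exact itP_PC f n _ h0

end Pool.Agent.W99.JQ
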